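import Pool.Agent.Lib.MP_971c94_pr.Main

/-!
# The parking process: the expected number of visits is finite for every `p < 1/2`

The definitions used in the statement are in `Pool/Agent/Lib/MP_971c94_pr/Defs.lean`.

Idea of the proof. Let `U_t` be the set of free spots at time `t`, `u_t` the probability that
the car of a vertex is unparked at time `t`; mass transport gives `E V = ∑ u_t` and
`P(v ∈ U_t) = 1 - 2 p + u_t ≥ 1 - 2 p`.
* Turning a spot into a car lowers `|S ∩ U_t|` by at most two (discrepancy argument), and
  `|S ∩ U_t|` does not depend on the data of a spot. A coordinate by coordinate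
  (Efron-Stein type) comparison of the densities `p` and `p₀ = p + (1 - 2 p) / 4` then gives
  `E_p exp (- l |S ∩ U_t|) ≤ exp (- l E_{p₀} |S ∩ U_t|)` with `l = (1 - 2 p) / 4`, hence
  `P_p (S ∩ U_t = ∅) ≤ exp (- (1 - 2 p)² |S| / 8)` for all finite `S` and all `t`.
* A tagged car that is unparked at time `t` has visited no vertex of `U_t` (for the process
  without that car), and its walk `Y` is independent of that process. So
  `p u_t ≤ C E exp (- c |{Y_0, …, Y_t}|)`.
* `K` is doubly stochastic (mass transport), no finite set is closed (infinite accessibility),
  so the expected exit time from a set of size `m` is at most `m² / κ`, and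
  `∑_t E exp (- c |{Y_0, …, Y_t}|) ≤ ∑_m exp (- c m) m² / κ < ∞`.
-/

open MeasureTheory Set
open scoped ENNReal unitInterval

namespace Pool.Agent.Results.MP_971c94_pr.FiniteMean

open Pool.Agent.Lib.MP_971c94_pr

/-- For every transitive, unimodular and infinitely accessible triple `(G, K, Γ)`, every
`p < 1/2` and every vertex `v`, the expected number of visits to `v` in the parking process at
density `p` is finite. -/
theorem result {V : Type*} [MeasurableSpace V] [DiscreteMeasurableSpace V]
    (G : SimpleGraph V) (K : V → PMF V) (Γ : Subgroup (G ≃g G)) (hT : IsTriple G K Γ)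
    (p : I) (hp : (p : ℝ) < 1 / 2) (v : V) :
    ∫⁻ ω, visits v ω ∂(law K p) < ⊤ :=
  lintegral_visits_lt_top hT p hp v

end Pool.Agent.Results.MP_971c94_pr.FiniteMean
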