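import Pool.Agent.Lib.PkQ.Bnd
import Pool.Agent.Lib.PkQ.Fin

/-!
# The parking process: no power law at the critical density

The definitions used in the statement are in `Pool/Agent/Lib/MP_971c94_pr/Defs.lean`,
`Pool/Agent/Lib/PkQ/Defs.lean`, `Pool/Agent/Lib/PkQ/ExZd.lean` and `Pool/Agent/Lib/PkQ/Fin.lean`.
-/

open MeasureTheory Set
open scoped ENNReal unitInterval

namespace Pool.Agent.Results.MP_971c94_pr.NoPowerLaw

open Pool.Agent.Lib.MP_971c94_pr Pool.Agent.Lib.PkQ

/-- For every transitive, unimodular, infinitely accessible triple whose `n`-step transition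
probabilities are at most `C (n+1)^(-α)` with `α > 2`, the expected number of visits is at most
`C' (1 + log (1 / (1/2 - p)))`; this covers `ℤ^d` (`d ≥ 5`) and the regular trees of degree at
least three with the uniform kernels, and so Q2 is false. -/
theorem result :
    (∀ (V : Type) [MeasurableSpace V] [DiscreteMeasurableSpace V] (G : SimpleGraph V)
      (K : V → PMF V) (Γ : Subgroup (G ≃g G)), IsTriple G K Γ →
      ∀ α C : ℝ, 2 < α → Decay K α C → LogBound K) ∧
    (∀ (d : ℕ) (K : (Fin d → ℤ) → PMF (Fin d → ℤ)), 5 ≤ d →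
      (∀ x y, (lattice d).Adj x y → K x y = (2 * d : ℝ≥0∞)⁻¹) →
      IsTriple (lattice d) K (translations d) ∧ LogBound K) ∧
    (∀ (V : Type) [MeasurableSpace V] [DiscreteMeasurableSpace V] (G : SimpleGraph V)
      (K : V → PMF V) (Γ : Subgroup (G ≃g G)) (q : ℕ), IsTriple G K Γ → G.IsTree → 3 ≤ q →
      (∀ x, (G.neighborSet x).ncard = q) → (∀ x y, G.Adj x y → K x y = (q : ℝ≥0∞)⁻¹) →
      LogBound K) ∧
    ¬ Q2 := by
  have main : ∀ (V : Type) [MeasurableSpace V] [DiscreteMeasurableSpace V] (G : SimpleGraph V)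
      (K : V → PMF V) (Γ : Subgroup (G ≃g G)), IsTriple G K Γ →
      ∀ α C : ℝ, 2 < α → Decay K α C → LogBound K := by
    intro V _ _ G K Γ T α C hα hC
    obtain ⟨C', _, h⟩ := log_bound T hα hC
    exact ⟨C', h⟩
  exact ⟨main, assemble main⟩

end Pool.Agent.Results.MP_971c94_pr.NoPowerLaw
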